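import Mathlib

set_option autoImplicit false

namespace Pool.Agent.H.MP_3d7de8_lc

open FirstOrder

universe u

/-- Function symbols of the language of `K`-algebras. -/
inductive AlgFunc (K : Type u) : ℕ → Type u
  | zero : AlgFunc K 0
  | neg : AlgFunc K 1
  | smul : K → AlgFunc K 1
  | add : AlgFunc K 2
  | mul : AlgFunc K 2

/-- The language of `K`-algebras, without relation symbols. -/
def algLang (K : Type u) : FirstOrder.Language.{u, 0} := ⟨AlgFunc K, fun _ => Empty⟩

/-- Every `K`-algebra is a structure for this language. -/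
instance algStructure (K A : Type u) [Field K] [NonUnitalRing A] [Module K A] :
    (algLang K).Structure A where
  funMap := fun f v =>
    match f, v with
    | AlgFunc.zero, _ => 0
    | AlgFunc.neg, v => -v 0
    | AlgFunc.smul c, v => c • v 0
    | AlgFunc.add, v => v 0 + v 1
    | AlgFunc.mul, v => v 0 * v 1
  RelMap := fun r _ => Empty.elim r

/-- Tuples with the same complete type are conjugate under an algebra automorphism. -/
def LogHomogeneous (K A : Type u) [Field K] [NonUnitalRing A] [Module K A] : Prop :=
  ∀ (m : ℕ) (a b : Fin m → A),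
    (∀ φ : (algLang K).Formula (Fin m), φ.Realize a ↔ φ.Realize b) →
    ∃ σ : A →ₙₐ[K] A, Function.Bijective σ ∧ ∀ j, σ (a j) = b j

/-- Products of `n` factors, with any bracketing. -/
inductive Pow {A : Type u} [Mul A] : ℕ → A → Prop
  | one (x : A) : Pow 1 x
  | mul {i j : ℕ} {x y : A} : Pow i x → Pow j y → Pow (i + j) (x * y)

/-- The products that span the terms of the derived series. -/
inductive Der {A : Type u} [Mul A] : ℕ → A → Prop
  | zero (x : A) : Der 0 x
  | mul {k : ℕ} {x y : A} : Der k x → Der k y → Der (k + 1) (x * y)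

def Nilpotent (n : ℕ) (A : Type u) [NonUnitalRing A] : Prop := ∀ x : A, Pow n x → x = 0

def Solvable (n : ℕ) (A : Type u) [NonUnitalRing A] : Prop := ∀ x : A, Der n x → x = 0

/-- `A` is free on `e` in the class `V` of associative `K`-algebras. -/
def IsFree (K : Type u) [Field K] (V : ∀ (B : Type u) [NonUnitalRing B], Prop)
    (A : Type u) [NonUnitalRing A] [Module K A] {r : ℕ} (e : Fin r → A) : Prop :=
  V A ∧ ∀ (B : Type u) [NonUnitalRing B] [Module K B] [IsScalarTower K B B] [SMulCommClass K B B],
    V B → ∀ f : Fin r → B, ∃! φ : A →ₙₐ[K] B, ∀ i, φ (e i) = f i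

end Pool.Agent.H.MP_3d7de8_lc
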