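import Mathlib
import Pool.Agent.H.MP_3d7de8_lc.Defs

set_option autoImplicit false

namespace Pool.Agent.H.MP_3d7de8_lc

open FirstOrder FirstOrder.Language Submodule

universe u

variable {K A : Type u} [Field K] [NonUnitalRing A] [Module K A]

section terms
variable {α : Type}

def tz : (algLang K).Term α := Term.func AlgFunc.zero ![]
def ts (c : K) (t : (algLang K).Term α) : (algLang K).Term α := Term.func (AlgFunc.smul c) ![t]
def ta (s t : (algLang K).Term α) : (algLang K).Term α := Term.func AlgFunc.add ![s, t]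
def tm (s t : (algLang K).Term α) : (algLang K).Term α := Term.func AlgFunc.mul ![s, t]

@[simp] theorem r_tz (v : α → A) : (tz : (algLang K).Term α).realize v = 0 := rfl
@[simp] theorem r_ts (v : α → A) (c : K) (t : (algLang K).Term α) :
    (ts c t).realize v = c • t.realize v := rfl
@[simp] theorem r_ta (v : α → A) (s t : (algLang K).Term α) :
    (ta s t).realize v = s.realize v + t.realize v := rfl
@[simp] theorem r_tm (v : α → A) (s t : (algLang K).Term α) :
    (tm s t).realize v = s.realize v * t.realize v := rfl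

def tsum : List ((algLang K).Term α) → (algLang K).Term α
  | [] => tz
  | t :: l => ta t (tsum l)

theorem r_tsum (v : α → A) (l : List ((algLang K).Term α)) :
    (tsum l).realize v = (l.map (Term.realize v)).sum := by
  induction l with
  | nil => rfl
  | cons t l ih => simp [tsum, ih]

@[simp] theorem r_tsum' (v : α → A) {n : ℕ} (t : Fin n → (algLang K).Term α) :
    (tsum (List.ofFn t)).realize v = ∑ i, (t i).realize v := by
  rw [r_tsum, List.map_ofFn, List.sum_ofFn]; rfl

theorem hom_realize (σ : A →ₙₐ[K] A) (v : α → A) (t : (algLang K).Term α) :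
    σ (t.realize v) = t.realize (fun i => σ (v i)) := by
  induction t with
  | var i => rfl
  | func f ts ih =>
    cases f with
    | zero => exact map_zero σ
    | neg => exact (map_neg σ _).trans (congrArg Neg.neg (ih 0))
    | smul c => exact (map_smul σ c _).trans (congrArg (c • ·) (ih 0))
    | add => exact (map_add σ _ _).trans (congrArg₂ (· + ·) (ih 0) (ih 1))
    | mul => exact (map_mul σ _ _).trans (congrArg₂ (· * ·) (ih 0) (ih 1))

end terms

theorem lin_case (h0 : ∀ x y : A, x * y = 0) : LogHomogeneous K A := by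
  intro m a b h
  have hk : LinearMap.ker (Fintype.linearCombination K a) =
      LinearMap.ker (Fintype.linearCombination K b) := by
    ext c
    have := h (Term.equal (tsum (List.ofFn fun j => ts (c j) (Term.var j))) tz)
    simpa [Fintype.linearCombination_apply] using this
  let f := ((Fintype.linearCombination K a).quotKerEquivRange.symm.trans
    (Submodule.quotEquivOfEq _ _ hk)).trans (Fintype.linearCombination K b).quotKerEquivRange
  obtain ⟨g, hg⟩ := Submodule.exists_linearEquiv_restrict_eq f
  refine ⟨⟨⟨⟨g, fun c x => g.map_smul c x⟩, g.map_zero, g.map_add⟩, fun x y => ?_⟩, g.bijective,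
    fun j => ?_⟩
  · simp [h0]
  · have h1 : Fintype.linearCombination K a (Pi.single j 1) = a j := by simp
    have h2 := hg ⟨_, LinearMap.mem_range_self _ (Pi.single j 1)⟩
    simp only [f, LinearEquiv.trans_apply, LinearMap.quotKerEquivRange_symm_apply_image,
      Submodule.mkQ_apply, Submodule.quotEquivOfEq_mk, LinearMap.quotKerEquivRange_apply_mk] at h2
    rw [h1] at h2
    show g (a j) = b j
    rw [← h2]; simp

variable [IsScalarTower K A A] [SMulCommClass K A A]

def pw (K A : Type u) [Field K] [NonUnitalRing A] [Module K A] [IsScalarTower K A A]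
    [SMulCommClass K A A] : ℕ → Submodule K A
  | 0 => ⊤
  | k + 1 => map₂ (LinearMap.mul K A) (pw K A k) ⊤

def fl (E : Submodule K A) : ℕ → Submodule K A
  | 0 => E
  | k + 1 => map₂ (LinearMap.mul K A) (fl E k) E

theorem fl_le (E : Submodule K A) (k : ℕ) : fl E k ≤ pw K A k := by
  induction k with
  | zero => exact le_top
  | succ k ih => exact map₂_le_map₂ ih le_top

theorem mul_pw1 {k : ℕ} {x y : A} (hx : x ∈ pw K A k) (hy : y ∈ pw K A 1) :
    x * y ∈ pw K A (k + 2) := by
  have : pw K A 1 ≤ (pw K A (k + 2)).comap (LinearMap.mul K A x) :=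
    map₂_le.2 fun u _ v _ => by
      simp only [mem_comap, LinearMap.mul_apply', ← mul_assoc]
      exact apply_mem_map₂ (LinearMap.mul K A)
        (apply_mem_map₂ (LinearMap.mul K A) hx mem_top) mem_top
  exact this hy

theorem pw_le (E : Submodule K A) (hE : ⊤ ≤ E ⊔ pw K A 1) (k : ℕ) :
    pw K A k ≤ fl E k ⊔ pw K A (k + 1) := by
  induction k with
  | zero => exact hE
  | succ k ih =>
    refine map₂_le.2 fun x hx y _ => ?_
    obtain ⟨x1, h1, x2, h2, rfl⟩ := mem_sup.1 (ih hx)
    obtain ⟨y1, h3, y2, h4, rfl⟩ := mem_sup.1 (hE (mem_top : y ∈ ⊤))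
    rw [LinearMap.mul_apply', add_mul, mul_add]
    exact add_mem (add_mem (mem_sup_left (apply_mem_map₂ (LinearMap.mul K A) h1 h3))
      (mem_sup_right (mul_pw1 (fl_le E k h1) h4)))
      (mem_sup_right (apply_mem_map₂ (LinearMap.mul K A) h2 mem_top))

theorem top_le (E : Submodule K A) (hE : ⊤ ≤ E ⊔ pw K A 1) (k : ℕ) :
    ⊤ ≤ (Finset.range k).sup (fl E) ⊔ pw K A k := by
  induction k with
  | zero => exact le_sup_right
  | succ k ih =>
    rw [Finset.range_add_one, Finset.sup_insert]
    refine ih.trans (sup_le (le_sup_right.trans le_sup_left) ((pw_le E hE k).trans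
      (sup_le_sup_right le_sup_left _)))

def ph : List A → A →ₗ[K] A
  | [] => LinearMap.id
  | b :: l => (ph l).comp (LinearMap.mulRight K b)

theorem ph_eq (l : List A) (x : A) : ph (K := K) l x = l.foldl (· * ·) x := by
  induction l generalizing x with
  | nil => rfl
  | cons b l ih => exact ih _

theorem pw_bot {N : ℕ} (h : ∀ (x : A) (l : List A), l.length = N → l.foldl (· * ·) x = 0) :
    pw K A N = ⊥ := by
  have : ∀ k (l : List A), k + l.length = N → pw K A k ≤ LinearMap.ker (ph l) := by
    intro k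
    induction k with
    | zero => intro l hl x _; rw [LinearMap.mem_ker, ph_eq]; exact h x l (by omega)
    | succ k ih =>
      intro l hl
      exact map₂_le.2 fun x hx y _ => ih (y :: l) (by simp; omega) hx
  exact eq_bot_iff.2 fun x hx => this N [] rfl hx

theorem main {r : ℕ} (e : Fin r → A)
    (gen : ∀ S : NonUnitalSubalgebra K A, (∀ i, e i ∈ S) → ∀ x, x ∈ S)
    (endo : ∀ x : Fin r → A, ∃ σ : A →ₙₐ[K] A, ∀ i, σ (e i) = x i)
    {N : ℕ} (nil : pw K A N = ⊥)
    (test : ∀ c : Fin r → K, ∃ α γ : A →ₗ[K] K, (∀ i, α (e i) = c i) ∧ (∀ u v, α (u * v) = 0) ∧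
      ∀ u v, γ (u * v) = α u * α v) : LogHomogeneous K A := by
  have hp1 : ∀ u v : A, u * v ∈ pw K A 1 := fun u v =>
    apply_mem_map₂ (LinearMap.mul K A) mem_top mem_top
  have hfin : Module.Finite K A := by
    have h1 : ⊤ ≤ span K (Set.range e) ⊔ pw K A 1 := fun x _ =>
      gen ((span K (Set.range e) ⊔ pw K A 1).toNonUnitalSubalgebra
        (fun u v _ _ => mem_sup_right (hp1 u v)))
        (fun i => mem_sup_left (subset_span ⟨i, rfl⟩)) x
    have h2 := top_le _ h1 N
    rw [nil, sup_bot_eq, top_le_iff] at h2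
    refine ⟨h2 ▸ fg_finset_sup _ _ fun k _ => ?_⟩
    induction k with
    | zero => exact fg_span (Set.finite_range e)
    | succ k ih => exact FG.map₂ _ (ih (by simp_all; omega)) (fg_span (Set.finite_range e))
  have hterm : ∀ u : A, ∃ t : (algLang K).Term (Fin r), t.realize e = u :=
    gen { carrier := {u | ∃ t : (algLang K).Term (Fin r), t.realize e = u}
          add_mem' := by rintro _ _ ⟨s, rfl⟩ ⟨t, rfl⟩; exact ⟨ta s t, rfl⟩
          zero_mem' := ⟨tz, rfl⟩
          mul_mem' := by rintro _ _ ⟨s, rfl⟩ ⟨t, rfl⟩; exact ⟨tm s t, rfl⟩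
          smul_mem' := by rintro c _ ⟨t, rfl⟩; exact ⟨ts c t, rfl⟩ }
      (fun i => ⟨Term.var i, rfl⟩)
  have hgen : ∀ u : A, ∀ v : A, ∃ y : Fin r → A, u * v = ∑ i, e i * y i :=
    gen { carrier := {u | ∀ v : A, ∃ y : Fin r → A, u * v = ∑ i, e i * y i}
          add_mem' := fun {s t} hs ht v => by
            obtain ⟨y, hy⟩ := hs v
            obtain ⟨z, hz⟩ := ht v
            exact ⟨y + z, by simp [add_mul, mul_add, hy, hz, Finset.sum_add_distrib]⟩
          zero_mem' := fun v => ⟨0, by simp⟩
          mul_mem' := fun {s t} hs _ v => by rw [mul_assoc]; exact hs _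
          smul_mem' := fun c s hs v => by
            rw [smul_mul_assoc, ← mul_smul_comm]; exact hs _ }
      (fun i v => ⟨Pi.single i v, by
        rw [Finset.sum_eq_single i] <;> simp +contextual [Pi.single_apply]⟩)
  intro m a b h
  choose t ht using fun j => hterm (a j)
  let G : (algLang K).Formula (Fin m ⊕ Fin r) :=
    Formula.iAlls (Fin 2) (Formula.iExs (Fin r) (Term.equal
      (tm (Term.var (.inl (.inr 0))) (Term.var (.inl (.inr 1))))
      (tsum (List.ofFn fun i => tm (Term.var (.inl (.inl (.inr i)))) (Term.var (.inr i))))))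
  let φ : (algLang K).Formula (Fin m) := Formula.iExs (Fin r)
    (G ⊓ Formula.iInf fun j => Term.equal (Term.var (.inl j)) ((t j).relabel .inr))
  have hφ : ∀ c : Fin m → A, φ.Realize c ↔ ∃ x : Fin r → A,
      (∀ w : Fin 2 → A, ∃ y : Fin r → A, w 0 * w 1 = ∑ i, x i * y i) ∧
        ∀ j, c j = (t j).realize x := by
    intro c
    simp [φ, G, Formula.realize_iExs, Formula.realize_iAlls, Formula.realize_iInf]
  obtain ⟨x, hx1, hx2⟩ := (hφ b).1 ((h φ).1 ((hφ a).2 ⟨e, fun w => hgen _ _, fun j => (ht j).symm⟩))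
  obtain ⟨σ, hσ⟩ := endo x
  have hS : ⊤ ≤ LinearMap.range (σ : A →ₗ[K] A) ⊔ pw K A 1 := by
    by_contra hc
    obtain ⟨f, hf0, hf⟩ := exists_le_ker_of_lt_top _ (lt_top_iff_ne_top.2 (fun h => hc h.ge))
    obtain ⟨α, γ, h1, h2, h3⟩ := test (fun i => f (e i))
    have hf2 : ∀ u v : A, f (u * v) = 0 := fun u v => hf (mem_sup_right (hp1 u v))
    have h4 : ∀ u, α u = f u :=
      gen ((LinearMap.eqLocus α f).toNonUnitalSubalgebra
        (fun u v _ _ => (h2 u v).trans (hf2 u v).symm)) h1
    refine hf0 (LinearMap.ext fun u => ?_)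
    obtain ⟨y, hy⟩ := hx1 ![u, u]
    have h5 := congrArg γ hy
    have h6 : ∀ i, f (x i) = 0 := fun i => hf (mem_sup_left ⟨e i, hσ i⟩)
    simpa [h3, h4, h6] using h5
  have hsurj : Function.Surjective (σ : A →ₗ[K] A) := by
    have h2 := top_le _ hS N
    rw [nil, sup_bot_eq] at h2
    rw [← LinearMap.range_eq_top, ← top_le_iff]
    refine h2.trans (Finset.sup_le fun k _ => ?_)
    clear * -
    induction k with
    | zero => exact le_rfl
    | succ k ih =>
      refine map₂_le.2 fun u hu v hv => ?_
      obtain ⟨u, rfl⟩ := ih hu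
      obtain ⟨v, rfl⟩ := hv
      exact ⟨u * v, map_mul σ u v⟩
  refine ⟨σ, ⟨LinearMap.injective_iff_surjective.2 hsurj, hsurj⟩, fun j => ?_⟩
  rw [hx2 j, ← ht j, hom_realize]
  simp only [hσ]

/-- the test algebra -/
def T (K : Type u) : Type u := K × K

instance : AddCommGroup (T K) := inferInstanceAs (AddCommGroup (K × K))
instance : Module K (T K) := inferInstanceAs (Module K (K × K))

instance : NonUnitalRing (T K) where
  mul x y := (0, x.1 * y.1)
  left_distrib x y z := Prod.ext (add_zero _).symm (mul_add _ _ _)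
  right_distrib x y z := Prod.ext (add_zero _).symm (add_mul _ _ _)
  zero_mul x := Prod.ext rfl (zero_mul _)
  mul_zero x := Prod.ext rfl (mul_zero _)
  mul_assoc x y z := Prod.ext rfl ((zero_mul _).trans (mul_zero _).symm)

instance : IsScalarTower K (T K) (T K) :=
  ⟨fun c x y => Prod.ext (mul_zero c).symm (mul_assoc c x.1 y.1)⟩

instance : SMulCommClass K (T K) (T K) :=
  ⟨fun c x y => Prod.ext (mul_zero c) (mul_left_comm c x.1 y.1)⟩

theorem Pow.pos {B : Type u} [Mul B] {k : ℕ} {x : B} (h : Pow k x) : 0 < k := by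
  induction h with
  | one => exact one_pos
  | mul _ _ ih => omega

theorem T_pow {k : ℕ} {x : T K} (h : Pow k x) : (2 ≤ k → x.1 = 0) ∧ (3 ≤ k → x = 0) := by
  induction h with
  | one => exact ⟨by omega, by omega⟩
  | @mul i j x y hx hy ih1 ih2 =>
    refine ⟨fun _ => rfl, fun h => Prod.ext rfl ?_⟩
    show x.1 * y.1 = 0
    have := hx.pos
    have := hy.pos
    by_cases hi : 2 ≤ i
    · rw [ih1.1 hi, zero_mul]
    · rw [ih2.1 (by omega), mul_zero]

theorem Der.pow {B : Type u} [Mul B] {k : ℕ} {x : B} (h : Der k x) : Pow (2 ^ k) x := by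
  induction h with
  | zero => exact .one _
  | mul _ _ ih1 ih2 => rw [pow_succ, mul_two]; exact .mul ih1 ih2

theorem free_homog (V : ∀ (B : Type u) [NonUnitalRing B], Prop) {r : ℕ} (e : Fin r → A)
    (hf : IsFree K V A e) (hsub : ∀ S : NonUnitalSubalgebra K A, V S)
    {N : ℕ} (h : ∀ (x : A) (l : List A), l.length = N → l.foldl (· * ·) x = 0)
    (hT : V (T K)) : LogHomogeneous K A := by
  refine main e (fun S hS x => ?_) (fun x => (hf.2 A hf.1 x).exists) (pw_bot h) (fun c => ?_)
  · obtain ⟨g, hg, -⟩ := hf.2 S (hsub S) (fun i => ⟨e i, hS i⟩)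
    have := (hf.2 A hf.1 e).unique
      (y₁ := (NonUnitalSubalgebraClass.subtype S).comp g) (y₂ := NonUnitalAlgHom.id K A)
      (fun i => by simp [hg]) (fun i => rfl)
    have h2 : ((g x : S) : A) = x := DFunLike.congr_fun this x
    exact h2 ▸ (g x).2
  · obtain ⟨g, hg, -⟩ := hf.2 (T K) hT (fun i => (c i, 0))
    refine ⟨(LinearMap.fst K K K).comp (g : A →ₗ[K] T K),
      (LinearMap.snd K K K).comp (g : A →ₗ[K] T K), fun i => congrArg Prod.fst (hg i),
      fun u v => congrArg Prod.fst (map_mul g u v), fun u v => congrArg Prod.snd (map_mul g u v)⟩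

omit [IsScalarTower K A A] [SMulCommClass K A A] in
theorem Pow.coe (S : NonUnitalSubalgebra K A) {k : ℕ} {x : S} (h : Pow k x) : Pow k (x : A) := by
  induction h with
  | one => exact .one _
  | mul _ _ ih1 ih2 => exact .mul ih1 ih2

omit [IsScalarTower K A A] [SMulCommClass K A A] in
theorem Der.coe (S : NonUnitalSubalgebra K A) {k : ℕ} {x : S} (h : Der k x) : Der k (x : A) := by
  induction h with
  | zero => exact .zero _
  | mul _ _ ih1 ih2 => exact .mul ih1 ih2

theorem pow_foldl {B : Type u} [Mul B] (l : List B) {k : ℕ} {x : B} (h : Pow k x) :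
    Pow (k + l.length) (l.foldl (· * ·) x) := by
  induction l generalizing k x with
  | nil => exact h
  | cons b l ih =>
    have := ih (h.mul (.one b))
    rwa [add_assoc, add_comm 1] at this

theorem mul_foldl {B : Type u} [Semigroup B] (l : List B) (x y : B) :
    l.foldl (· * ·) (x * y) = x * l.foldl (· * ·) y := by
  induction l generalizing y with
  | nil => rfl
  | cons b l ih => simp only [List.foldl_cons, mul_assoc, ih]

theorem der_foldl {B : Type u} [Semigroup B] (n : ℕ) (l : List B) (x : B)
    (h : l.length + 1 = 2 ^ n) : Der n (l.foldl (· * ·) x) := by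
  induction n generalizing l x with
  | zero => exact .zero _
  | succ n ih =>
    have hp : 0 < 2 ^ n := by positivity
    have h1 : 2 ^ n - 1 < l.length := by omega
    rw [← List.take_append_drop (2 ^ n - 1) l, List.drop_eq_getElem_cons h1, List.foldl_append,
      List.foldl_cons, mul_foldl]
    exact .mul (ih _ _ (by simp; omega)) (ih _ _ (by simp; omega))

end Pool.Agent.H.MP_3d7de8_lc
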